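import Mathlib

set_option autoImplicit false
open scoped InnerProductSpace

namespace Pool.Agent.Results.MP_177738_an.Bounded

/-- Pareto solution set: `x ∈ K` with `F(x)(x-y) ∉ ℝ^m_+ \ {0}` for all `y ∈ K` -/
def Sol {n m : ℕ} (F : Fin m → EuclideanSpace ℝ (Fin n) → EuclideanSpace ℝ (Fin n))
    (K : Set (EuclideanSpace ℝ (Fin n))) : Set (EuclideanSpace ℝ (Fin n)) :=
  {x | x ∈ K ∧ ∀ y ∈ K,
    ¬ ((∀ l, 0 ≤ ⟪F l x, x - y⟫_ℝ) ∧ (fun l => ⟪F l x, x - y⟫_ℝ) ≠ 0)}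

abbrev E4 := EuclideanSpace ℝ (Fin 4)

def K : Set E4 := {z | 0 ≤ z 0 ∧ z 0 ≤ 1 ∧ z 1 ≤ 1 ∧ 0 ≤ z 2 ∧ z 2 ≤ 1 ∧ 0 ≤ z 3 ∧ z 3 ≤ 1 ∧
  ∀ t : ℝ, 0 < t → 0 ≤ 2 * t * (z 1 + z 2) + t ^ 2 * z 0 + z 3}

noncomputable def F : Fin 2 → E4 → E4 :=
  ![fun z => !₂[z 2, 0, 1 - z 0, 1], fun _ => !₂[0, 1, 0, 0]]

lemma in0 (z w : E4) : ⟪F 0 z, w⟫_ℝ = z 2 * w 0 + (1 - z 0) * w 2 + w 3 := by
  simp [F, PiLp.inner_apply, Fin.sum_univ_four]; ring

lemma in1 (z w : E4) : ⟪F 1 z, w⟫_ℝ = w 1 := by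
  simp [F, PiLp.inner_apply, Fin.sum_univ_four]

lemma mem_Sol (z : E4) : z ∈ Sol F K ↔ z ∈ K ∧ ∀ y ∈ K,
    0 ≤ z 2 * (z 0 - y 0) + (1 - z 0) * (z 2 - y 2) + (z 3 - y 3) → 0 ≤ z 1 - y 1 →
      z 2 * (z 0 - y 0) + (1 - z 0) * (z 2 - y 2) + (z 3 - y 3) = 0 ∧ z 1 - y 1 = 0 := by
  simp only [Sol, Set.mem_setOf_eq, Fin.forall_fin_two, ne_eq, funext_iff, in0, in1,
    PiLp.sub_apply, Pi.zero_apply, not_and, not_not, and_imp, _root_.not_imp]

lemma K_closed : IsClosed K := by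
  simp only [K, Set.setOf_and, Set.setOf_forall]
  refine IsClosed.inter ?_ (IsClosed.inter ?_ (IsClosed.inter ?_ (IsClosed.inter ?_
    (IsClosed.inter ?_ (IsClosed.inter ?_ (IsClosed.inter ?_
      (isClosed_iInter fun t => isClosed_iInter fun _ => ?_))))))) <;>
  exact isClosed_le (by fun_prop) (by fun_prop)

lemma K_convex : Convex ℝ K := by
  rintro x ⟨a1, a2, a3, a4, a5, a6, a7, a8⟩ y ⟨b1, b2, b3, b4, b5, b6, b7, b8⟩ s r hs hr hsr
  simp only [K, Set.mem_setOf_eq, PiLp.add_apply, PiLp.smul_apply, smul_eq_mul]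
  refine ⟨by positivity, by nlinarith, by nlinarith, by positivity, by nlinarith, by positivity,
    by nlinarith, fun t ht => ?_⟩
  nlinarith [mul_nonneg hs (a8 t ht), mul_nonneg hr (b8 t ht)]

lemma theta_ne (z : E4) (hz : z ∈ Sol F K) : z 1 + (1 - z 0) ^ 2 / 16 ≠ 0 := by
  intro h
  obtain ⟨⟨a1, a2, a3, a4, a5, a6, a7, a8⟩, hs⟩ := (mem_Sol z).1 hz
  rcases a2.eq_or_lt with h1 | h1
  · have := hs !₂[1, -1, 1, z 3] (by
      simp only [K, Set.mem_setOf_eq]; simp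
      exact ⟨a6, a7, fun t _ => by positivity⟩)
    simp [h1] at this h
    rw [h] at this
    norm_num at this
  · set d := 1 - z 0 with hd
    have hd0 : 0 < d := by linarith
    have hd1 : d ≤ 1 := by linarith
    have hy : z 1 = -(d ^ 2 / 16) := by linarith
    have hd2 : d ^ 2 ≤ 1 := pow_le_one₀ hd0.le hd1
    have hd4 : d ^ 4 ≤ 1 := pow_le_one₀ hd0.le hd1
    rcases lt_or_ge (d ^ 4 / 256) (z 3) with hb | hb
    · have := hs !₂[1, z 1, 0, d ^ 4 / 256] (by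
        simp only [K, Set.mem_setOf_eq]; simp
        refine ⟨a3, by positivity, by linarith, fun t _ => ?_⟩
        rw [hy]; nlinarith [sq_nonneg (t - d ^ 2 / 16)])
      simp at this
      have e : z 2 * (z 0 - 1) + d * z 2 + (z 3 - d ^ 4 / 256) = z 3 - d ^ 4 / 256 := by
        rw [hd]; ring
      rw [e] at this
      linarith [this (by linarith)]
    · have h8 := a8 (d ^ 2 / 16) (by positivity)
      have hx : z 0 = 1 - d := by linarith
      rw [hy, hx] at h8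
      have ha : d ^ 3 / 32 ≤ z 2 := by
        by_contra hc
        have h2 : 0 < d ^ 2 := by positivity
        nlinarith [mul_pos h2 (sub_pos.2 (not_le.1 hc))]
      have := hs !₂[1 / 2, z 1, 0, d ^ 4 / 128] (by
        simp only [K, Set.mem_setOf_eq]; simp
        refine ⟨by norm_num, a3, by positivity, by linarith, fun t _ => ?_⟩
        rw [hy]; nlinarith [sq_nonneg (t - d ^ 2 / 8)])
      simp at this
      have e : z 2 * (z 0 - 2⁻¹) + d * z 2 + (z 3 - d ^ 4 / 128) =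
          z 2 / 2 + z 3 - d ^ 4 / 128 := by rw [hd]; ring
      rw [e] at this
      have h3 : 0 < d ^ 3 := by positivity
      have h4 : d ^ 4 ≤ d ^ 3 := by nlinarith
      linarith [this (by linarith)]

lemma p_mem : (0 : E4) ∈ Sol F K := by
  refine (mem_Sol _).2 ⟨by simp [K], ?_⟩
  rintro y ⟨a1, a2, a3, a4, a5, a6, a7, a8⟩ h1 h2
  simp at h1 h2 ⊢
  have e2 : y 2 = 0 := by linarith
  have e3 : y 3 = 0 := by linarith
  refine ⟨by linarith, ?_⟩
  by_contra hc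
  have hy : 0 < -y 1 := by have := lt_of_le_of_ne h2 hc; linarith
  have := a8 _ hy
  rw [e2, e3] at this
  nlinarith [mul_pos hy hy]

lemma q_mem : (!₂[0, -1, 1, 0] : E4) ∈ Sol F K := by
  refine (mem_Sol _).2 ⟨by simp [K], ?_⟩
  rintro y ⟨a1, a2, a3, a4, a5, a6, a7, a8⟩ h1 h2
  have := a8 1 one_pos
  simp at h1 h2 ⊢
  constructor <;> linarith

theorem result : ∃ (n m : ℕ) (K : Set (EuclideanSpace ℝ (Fin n)))
    (F : Fin m → EuclideanSpace ℝ (Fin n) → EuclideanSpace ℝ (Fin n)),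
    1 ≤ n ∧ 1 ≤ m ∧ K.Nonempty ∧ IsClosed K ∧ Convex ℝ K ∧ (∀ l, ContinuousOn (F l) K) ∧
    (∀ l, ∀ x ∈ K, ∀ y ∈ K, 0 ≤ ⟪F l y - F l x, y - x⟫_ℝ) ∧
    ¬ IsPreconnected (Sol F K) ∧ Bornology.IsBounded (Sol F K) := by
  refine ⟨4, 2, K, F, by norm_num, by norm_num, ⟨0, p_mem.1⟩, K_closed, K_convex, ?_, ?_, ?_, ?_⟩
  · intro l
    refine Continuous.continuousOn ?_
    fin_cases l
    · show Continuous fun z : E4 => (!₂[z 2, 0, 1 - z 0, 1] : E4)
      fun_prop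
    · exact continuous_const
  · rw [Fin.forall_fin_two]
    constructor <;> intro x _ y _
    · rw [inner_sub_left, in0, in0]; simp only [PiLp.sub_apply]; nlinarith
    · rw [inner_sub_left, in1, in1]; simp
  · intro hc
    have := hc.intermediate_value q_mem p_mem (f := fun z : E4 => z 1 + (1 - z 0) ^ 2 / 16)
      (by fun_prop)
    obtain ⟨z, hz, h0⟩ := this (show (0 : ℝ) ∈ _ by simp; norm_num)
    exact theta_ne z hz h0
  · refine (Metric.isBounded_closedBall (x := (0 : E4)) (r := 4)).subset ?_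
    rintro z ⟨⟨a1, a2, a3, a4, a5, a6, a7, a8⟩, -⟩
    have := a8 1 one_pos
    rw [mem_closedBall_zero_iff, EuclideanSpace.norm_eq, Real.sqrt_le_iff, Fin.sum_univ_four]
    simp only [Real.norm_eq_abs, sq_abs]
    constructor
    · norm_num
    · nlinarith

end Pool.Agent.Results.MP_177738_an.Bounded
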